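import Pool.Agent.Helper26.PL.PD

/-!
MP_fcb106_co (polynomial upper bound), row PA4b: the update of the state is computable.
-/

set_option autoImplicit false

namespace Pool.Agent.Helper27.PL

open Pool.Agent.Helper33.DP Pool.Agent.Helper26.PL

/-- The computable list operations, on the data of one step. -/
theorem glue (w N : ℕ) : Computable (fun t : (St w N × ℕ) × Ch w N =>
    (t.2.1 ++ t.2.2.1 :: t.2.2.2.1 :: t.2.2.2.2.1 :: t.2.2.2.2.2 : St w N)) := by
  have p : Primrec (fun t : (St w N × ℕ) × Ch w N => t.2) := Primrec.snd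
  have p2 : Primrec (fun t : (St w N × ℕ) × Ch w N => t.2.2) := Primrec.snd.comp p
  have p3 : Primrec (fun t : (St w N × ℕ) × Ch w N => t.2.2.2) := Primrec.snd.comp p2
  have p4 : Primrec (fun t : (St w N × ℕ) × Ch w N => t.2.2.2.2) := Primrec.snd.comp p3
  have q1 : Primrec (fun t : (St w N × ℕ) × Ch w N => t.2.1) := Primrec.fst.comp p
  have q2 : Primrec (fun t : (St w N × ℕ) × Ch w N => t.2.2.1) := Primrec.fst.comp p2
  have q3 : Primrec (fun t : (St w N × ℕ) × Ch w N => t.2.2.2.1) := Primrec.fst.comp p3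
  have q4 : Primrec (fun t : (St w N × ℕ) × Ch w N => t.2.2.2.2.1) := Primrec.fst.comp p4
  have q5 : Primrec (fun t : (St w N × ℕ) × Ch w N => t.2.2.2.2.2) := Primrec.snd.comp p4
  exact (Primrec.list_append.comp q1 (Primrec.list_cons.comp q2
    (Primrec.list_cons.comp q3 (Primrec.list_cons.comp q4 q5)))).to_comp

/-- PA4b: the update is computable. -/
theorem PA4b : ST_PA4b := by
  intro w N A hA
  obtain ⟨hd, hc⟩ := hA
  have h1 : Computable (fun t : (St w N × ℕ) × Ch w N => decide (t.1.2 ∈ A)) :=
    hc.comp (Computable.snd.comp Computable.fst)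
  have h3 : Computable (fun t : (St w N × ℕ) × Ch w N => t.1.1) :=
    Computable.fst.comp Computable.fst
  refine (Computable.cond h1 (glue w N) h3).of_eq ?_
  intro t
  unfold upd
  by_cases h : t.1.2 ∈ A
  · simp [h]
  · simp [h]

end Pool.Agent.Helper27.PL
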